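import Pool.Agent.H52.TC.Main
import Pool.Agent.H52.TC.SCA

/-!
# Coefficients of numbers of degree at most three near the cubes

Let `x = ∑ d_m b^(-m)` (integers `0 ≤ d_m ≤ C`, for instance the base `b` digits of `x`) be irrational
and algebraic of degree at most three. Then for all large `N` at least `c N^(1/3)` of the `m ≤ N` have
`d_m ≠ 0` and distance `> H` from all numbers `a u³`. In particular `∑ ε_n b^(-n³)` (integers
`0 ≤ ε_n ≤ C`, infinitely many nonzero), for instance `∑ b^(-n³)`, is not algebraic of degree at most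
three. No hypothesis is assumed.
-/

set_option autoImplicit false

open Polynomial Finset

namespace Pool.Agent.Results.MP_a7a9f5_nt.DigitsNearCubes

open Classical in
/-- The number of `m ∈ {0, ..., N}` with `d m ≠ 0` and `|m - a u³| > H` for all `u ≥ 0`. -/
noncomputable def awayFromCubes (a H : ℕ) (d : ℕ → ℤ) (N : ℕ) : ℕ :=
  ((range (N + 1)).filter fun m => d m ≠ 0 ∧
    ∀ u : ℕ, a * u ^ 3 + H < m ∨ m + H < a * u ^ 3).card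

/-- The result. -/
theorem result :
    (∀ b : ℕ, 2 ≤ b → ∀ (d : ℕ → ℤ) (C : ℤ), (∀ m, 0 ≤ d m ∧ d m ≤ C) →
      Irrational (∑' m : ℕ, (d m : ℝ) / (b : ℝ) ^ m) →
      ∀ P : ℤ[X], P ≠ 0 → P.natDegree ≤ 3 → aeval (∑' m : ℕ, (d m : ℝ) / (b : ℝ) ^ m) P = 0 →
      ∀ a : ℕ, 1 ≤ a → ∀ H : ℕ, ∃ c : ℝ, 0 < c ∧ ∃ N0 : ℕ, ∀ N : ℕ, N0 ≤ N →
        c * (N : ℝ) ^ ((1 : ℝ) / 3) ≤ awayFromCubes a H d N) ∧
    (∀ b : ℕ, 2 ≤ b → ∀ (ε : ℕ → ℤ) (C : ℤ), (∀ n, 0 ≤ ε n ∧ ε n ≤ C) →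
      (∀ N : ℕ, ∃ n, N ≤ n ∧ ε n ≠ 0) → ∀ P : ℤ[X], P ≠ 0 → P.natDegree ≤ 3 →
      aeval (∑' n : ℕ, (ε n : ℝ) / (b : ℝ) ^ (n ^ 3)) P ≠ 0) :=
  ⟨fun b hb d C hd hx P hP hdeg h0 a ha H =>
    H52.TC.sca H52.TC.coefM b hb d C hd hx P hP hdeg h0 a ha H,
   fun b hb ε C hε hinf P hP hdeg =>
    H52.TC.poly2
      (H52.TC.fin2 H52.TC.sup2 H52.TC.ana2 (H52.TC.lio H52.TC.irr) (H52.TC.posa H52.TC.sup2)
        H52.TC.posb (H52.TC.cnt H52.TC.sup2) (H52.TC.up2 H52.TC.sup2 H52.TC.lat)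
        (H52.TC.win2 H52.TC.sup2 H52.TC.lat) H52.TC.exM) b hb ε C hε hinf P hP hdeg⟩

end Pool.Agent.Results.MP_a7a9f5_nt.DigitsNearCubes
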