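import Pool.Agent.H52.TC.MainQ

/-!
# Sums over fourth powers are not algebraic of degree at most four

If `0 ≤ ε n ≤ C` are integers, infinitely many of them nonzero, then `∑ ε_n b^(-n⁴)`, for instance
`∑ b^(-n⁴)`, is not algebraic of degree at most four. No hypothesis is assumed.
-/

set_option autoImplicit false

open Polynomial

namespace Pool.Agent.Results.MP_a7a9f5_nt.FourthPowers

/-- The result. -/
theorem result (b : ℕ) (hb : 2 ≤ b) (ε : ℕ → ℤ) (C : ℤ)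
    (hε : ∀ n, 0 ≤ ε n ∧ ε n ≤ C) (hinf : ∀ N : ℕ, ∃ n, N ≤ n ∧ ε n ≠ 0)
    (P : ℤ[X]) (hP : P ≠ 0) (hdeg : P.natDegree ≤ 4) :
    aeval (∑' n : ℕ, (ε n : ℝ) / (b : ℝ) ^ (n ^ 4)) P ≠ 0 :=
  H52.TC.polyQ H52.TC.finalQ b hb ε C hε hinf P hP hdeg

end Pool.Agent.Results.MP_a7a9f5_nt.FourthPowers
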